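import Pool.Agent.Helper37.LN6.End
import Pool.Agent.Helper12.LN6.D1
import Pool.Agent.Helper12.LN6.SQ
import Pool.Agent.Helper42.LN6.SF2
import Pool.Agent.Helper75.LN6.SV
import Pool.Agent.Helper32.LN6.One
import Pool.Agent.Helper32.LN6.AV
import Pool.Agent.Helper91.LN6.Lev
import Pool.Agent.Helper91.LN6.Lev3
import Pool.Agent.Helper80.LN6.Lab3
import Pool.Agent.Helper89.LN6.Z
import Pool.Agent.Helper1.LN6.NE
import Pool.Agent.Helper1.LN6.G9
import Pool.Agent.Helper2.LN6.Core

/-!
LN6, MAIN of part (III): the abstract theorem `SAbs k` (no open leaf).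
-/

namespace Pool.Agent.Helper37.LN6M

open LN6 LN6.WSys Pool.Agent.Helper2.LN6

variable {k : ℕ} {Γ F : Type} [Group Γ] [MulAction Γ F] [Fintype F] {b : ℝ}

/-- If `b > 0`, every block has exactly `k` elements. -/
theorem card_block {W : WSys k Γ F} (A : W.Ax b) (hb : 0 < b) :
    ∀ x, Nat.card {y : F // W.R x y} = k := by
  have hk := A.k5
  have h3 : W.SF3 := SF3_of A
  have hT : W.STrB := STrB_of A
  have h3' : W.SF3' := SF3'_of A
  have h2 : W.SF2 := SF2_of A hb
  have h1 : W.SOne := SOne_of A hb h3 hT h3' h2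
  have hV : W.SV b := SV_of A h3 h3' h2 h1
  have hL4 : W.SLV b 4 := SLV_of A h3 h2 h1 hV le_rfl (by omega)
  have hL3 : W.SLV b 3 := SLV3_of A hL4
  have hL2 : W.SLV2 b := SLV2_of A hL3
  have hLk : W.SLV b (k - 1) := SLV_of A h3 h2 h1 hV (by omega) (by omega)
  have hQ3 : W.SQ b 3 := SQ_of A le_rfl (by omega) hL3
  have hQk : W.SQ b (k - 1) := SQ_of A (by omega) (by omega) hLk
  have hAV : W.SAV b := SAV_of A h3
  obtain ⟨l, hl⟩ := lab_of A hb hT hV hQ3 hQk hAV
  have hu : W.SUniq l := SUniq_of A hb hL2 hl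
  have hq3 : W.SQ3 b l := SQ3_of A hb hAV h2 h3' hl hu hQ3
  have h9 : W.SG9 l := G9_of A hb l hl hQ3 hq3
  have hne : W.SNE := NE_of A hb l hl h9
  have hend := END_of A hb h2 h1 hL2 hl hne
  intro x
  classical
  rw [Nat.card_eq_fintype_card, Fintype.card_subtype]
  exact (congrArg Finset.card (by ext y; simp only [Finset.mem_filter, Finset.mem_univ, true_and])).trans (hend x)

/-- Part (III), no hypotheses. -/
theorem sAbs (k : ℕ) : SAbs k := by
  intro Γ F _ _ _ W b A
  have : Fintype F := Fintype.ofFinite F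
  rcases (A.b_nonneg).lt_or_eq with hb | hb
  · exact Or.inl (card_block A hb)
  · exact Or.inr fun i hi x => A.s_eq_zero hb.symm i hi x

end Pool.Agent.Helper37.LN6M
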