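import Pool.Agent.Helper26.LN6.Defs

/-!
LN6: small base lemmas (helper37).
-/

open scoped Classical
open Finset

set_option linter.unusedSectionVars false

namespace LN6.H37

open LN6 WSys

variable {k : ℕ} {Γ F : Type} [Group Γ] [MulAction Γ F]

theorem v_conj' (W : WSys k Γ F) (g h : Γ) {x y : F} (hR : W.R x y) (hne : x ≠ y) :
    W.v (h * g * h⁻¹) x y = W.v g (h⁻¹ • x) (h⁻¹ • y) := by
  have h1 := W.v_conj g h (h⁻¹ • x) (h⁻¹ • y) (W.R_smul _ hR) (fun hh => hne ((MulAction.injective h⁻¹) hh))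
  rwa [smul_inv_smul, smul_inv_smul] at h1

/-- `v g` is invariant under elements commuting with `g`. -/
theorem v_comm (W : WSys k Γ F) (g h : Γ) {x y : F} (hR : W.R x y) (hne : x ≠ y) (hc : h * g = g * h) :
    W.v g (h • x) (h • y) = W.v g x y := by
  have h1 := W.v_conj g h x y hR hne
  rwa [hc, mul_inv_cancel_right] at h1

theorem E_smul (W : WSys k Γ F) (g h : Γ) {x y : F} :
    W.E (h * g * h⁻¹) (h • x) (h • y) ↔ W.E g x y := by
  constructor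
  · rintro (h1 | ⟨h1, h2⟩)
    · exact Or.inl (MulAction.injective h h1)
    · by_cases hxy : x = y
      · exact Or.inl hxy
      · have hR : W.R x y := by
          have := W.R_smul h⁻¹ h1
          rwa [inv_smul_smul, inv_smul_smul] at this
        rw [W.v_conj g h x y hR hxy] at h2
        exact Or.inr ⟨hR, h2⟩
  · rintro (h1 | ⟨h1, h2⟩)
    · exact Or.inl (by rw [h1])
    · by_cases hxy : x = y
      · exact Or.inl (by rw [hxy])
      · refine Or.inr ⟨W.R_smul h h1, ?_⟩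
        rw [W.v_conj g h x y h1 hxy]
        exact h2

theorem E_comm (W : WSys k Γ F) (g h : Γ) (hc : h * g = g * h) {x y : F} :
    W.E g (h • x) (h • y) ↔ W.E g x y := by
  have := E_smul W g h (x := x) (y := y)
  rwa [hc, mul_inv_cancel_right] at this

variable [Fintype F]

theorem mem_cl (W : WSys k Γ F) (g : Γ) {x y : F} : y ∈ W.cl g x ↔ W.E g x y := by
  unfold WSys.cl
  simp

theorem cl_smul (W : WSys k Γ F) (g h : Γ) (x : F) :
    W.cl (h * g * h⁻¹) (h • x) = (W.cl g x).map (MulAction.toPerm h).toEmbedding := by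
  ext y
  rw [mem_cl, Finset.mem_map]
  constructor
  · intro hy
    refine ⟨h⁻¹ • y, ?_, ?_⟩
    · rw [mem_cl, ← E_smul W g h, smul_inv_smul]
      exact hy
    · show h • h⁻¹ • y = y
      rw [smul_inv_smul]
  · rintro ⟨z, hz, rfl⟩
    rw [mem_cl] at hz
    exact (E_smul W g h).2 hz

theorem B_smul (W : WSys k Γ F) (g h : Γ) (x : F) : h • x ∈ W.B (h * g * h⁻¹) ↔ x ∈ W.B g := by
  show (W.cl (h * g * h⁻¹) (h • x)).card = W.r ↔ (W.cl g x).card = W.r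
  rw [cl_smul, Finset.card_map]

theorem B_conj (W : WSys k Γ F) (g h : Γ) (x : F) : x ∈ W.B (h * g * h⁻¹) ↔ h⁻¹ • x ∈ W.B g := by
  rw [← B_smul W g h (h⁻¹ • x), smul_inv_smul]

theorem B_comm (W : WSys k Γ F) (g h : Γ) (hc : h * g = g * h) (x : F) : h • x ∈ W.B g ↔ x ∈ W.B g := by
  have := B_smul W g h x
  rwa [hc, mul_inv_cancel_right] at this

/-- the orbit of a pair under a subgroup. -/
noncomputable def orb (S : Subgroup Γ) (p : F × F) : Finset (F × F) :=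
  univ.filter fun q => ∃ g ∈ S, g • p = q

theorem mem_orb (S : Subgroup Γ) (p q : F × F) : q ∈ orb S p ↔ ∃ g ∈ S, g • p = q := by
  unfold orb; simp

theorem self_mem_orb (S : Subgroup Γ) (p : F × F) : p ∈ orb S p :=
  (mem_orb S p p).2 ⟨1, S.one_mem, one_smul _ _⟩

theorem orb_stable (S : Subgroup Γ) (p : F × F) : ∀ g ∈ S, ∀ q ∈ orb S p, g • q ∈ orb S p := by
  intro g hg q hq
  obtain ⟨h, hh, rfl⟩ := (mem_orb _ _ _).1 hq
  exact (mem_orb _ _ _).2 ⟨g * h, S.mul_mem hg hh, mul_smul _ _ _⟩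

/-- `χ_O(g)` -/
noncomputable def chi (W : WSys k Γ F) (O : Finset (F × F)) (g : Γ) : ℝ := ∑ p ∈ O, W.v g p.1 p.2

/-- a set of good pairs stable under a subgroup. -/
structure St (W : WSys k Γ F) (S : Subgroup Γ) (O : Finset (F × F)) : Prop where
  good : ∀ p ∈ O, W.R p.1 p.2 ∧ p.1 ≠ p.2
  st : ∀ g ∈ S, ∀ p ∈ O, g • p ∈ O

theorem St.mono {W : WSys k Γ F} {S S' : Subgroup Γ} {O : Finset (F × F)} (h : St W S O) (hS : S' ≤ S) :
    St W S' O := ⟨h.good, fun g hg => h.st g (hS hg)⟩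

theorem St.chi_mul {W : WSys k Γ F} {S : Subgroup Γ} {O : Finset (F × F)} (h : St W S O) {g g' : Γ}
    (hg : g ∈ S) (hg' : g' ∈ S) : chi W O (g * g') = chi W O g + chi W O g' :=
  W.v_sum O g g' h.good (h.st g hg) (h.st g' hg')

theorem St.chi_one {W : WSys k Γ F} {S : Subgroup Γ} {O : Finset (F × F)} (h : St W S O) :
    chi W O 1 = 0 := by
  have := h.chi_mul S.one_mem S.one_mem
  rw [mul_one] at this
  linarith

theorem St.chi_inv {W : WSys k Γ F} {S : Subgroup Γ} {O : Finset (F × F)} (h : St W S O) {g : Γ}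
    (hg : g ∈ S) : chi W O g⁻¹ = - chi W O g := by
  have := h.chi_mul hg (S.inv_mem hg)
  rw [mul_inv_cancel, h.chi_one] at this
  linarith

theorem St.chi_conj {W : WSys k Γ F} {S : Subgroup Γ} {O : Finset (F × F)} (h : St W S O) {g g' : Γ}
    (hg : g ∈ S) (hg' : g' ∈ S) : chi W O (g * g' * g⁻¹) = chi W O g' := by
  rw [h.chi_mul (S.mul_mem hg hg') (S.inv_mem hg), h.chi_mul hg hg', h.chi_inv hg]
  ring

/-- the orbit of a good pair. -/
theorem St.orb {W : WSys k Γ F} (S : Subgroup Γ) {x y : F} (hR : W.R x y) (hne : x ≠ y) :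
    St W S (H37.orb S (x, y)) := by
  refine ⟨?_, orb_stable S _⟩
  intro p hp
  obtain ⟨g, _, rfl⟩ := (mem_orb _ _ _).1 hp
  exact ⟨W.R_smul g hR, fun hh => hne (MulAction.injective g hh)⟩

theorem s_succ_conj (W : WSys k Γ F) {i : ℕ} (hi : i + 2 < k) :
    (W.s i * W.s (i + 1)) * W.s i * (W.s i * W.s (i + 1))⁻¹ = W.s (i + 1) := by
  rw [mul_inv_rev, ← mul_assoc, W.braid i hi]
  group

/-- all `s i`, `i ≥ i₀`, have the same `χ`. -/
theorem St.chi_s {W : WSys k Γ F} {S : Subgroup Γ} {O : Finset (F × F)} (h : St W S O) {i₀ : ℕ}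
    (hS : ∀ i, i₀ ≤ i → i + 1 < k → W.s i ∈ S) : ∀ i, i₀ ≤ i → i + 1 < k →
    chi W O (W.s i) = chi W O (W.s i₀) := by
  intro i hi
  induction i, hi using Nat.le_induction with
  | base => intro _; rfl
  | succ i hi ih =>
    intro hik
    rw [← ih (by omega), ← s_succ_conj W (i := i) (by omega)]
    exact h.chi_conj (S.mul_mem (hS i hi (by omega)) (hS (i + 1) (by omega) hik)) (hS i hi (by omega))

theorem lam_succ (W : WSys k Γ F) (m : ℕ) : W.lam (m + 2) = W.s (m + 1) * W.lam (m + 1) * W.s (m + 1) := rfl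
theorem T_succ (W : WSys k Γ F) (m : ℕ) : W.T (m + 2) = W.T (m + 1) * W.lam (m + 1) := rfl
theorem lam_one (W : WSys k Γ F) : W.lam 1 = W.s 0 * W.s 0 := rfl
theorem T_two (W : WSys k Γ F) : W.T 2 = W.s 0 * W.s 0 := by
  show (1 : Γ) * (W.s 0 * W.s 0) = _
  rw [one_mul]

theorem s_mem_L (W : WSys k Γ F) {i : ℕ} (hi : 2 ≤ i) (hik : i + 1 < k) : W.s i ∈ W.L :=
  Subgroup.subset_closure (Or.inr ⟨i, hi, hik, rfl⟩)
theorem s0_mem_L (W : WSys k Γ F) : W.s 0 ∈ W.L :=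
  Subgroup.subset_closure (Or.inl (Or.inl rfl))
theorem lam2_mem_L (W : WSys k Γ F) : W.lam 2 ∈ W.L :=
  Subgroup.subset_closure (Or.inl (Or.inr rfl))
theorem s_mem_Bm (W : WSys k Γ F) {m i : ℕ} (hi : i + 1 < m) : W.s i ∈ W.Bm m :=
  Subgroup.subset_closure ⟨i, hi, rfl⟩

theorem chiL (W : WSys k Γ F) {O : Finset (F × F)} (h : St W W.L O) : ∀ j, 2 ≤ j → j ≤ k →
    W.T j ∈ W.L ∧ (j < k → W.lam j ∈ W.L ∧
      chi W O (W.lam j) = chi W O (W.lam 2) + 2 * ((j : ℝ) - 2) * chi W O (W.s 2)) ∧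
    chi W O (W.T j) = 2 * chi W O (W.s 0) + ((j : ℝ) - 2) * chi W O (W.lam 2) +
      ((j : ℝ) - 2) * ((j : ℝ) - 3) * chi W O (W.s 2) := by
  intro j hj
  induction j, hj using Nat.le_induction with
  | base =>
    intro _
    refine ⟨?_, fun _ => ⟨lam2_mem_L W, by push_cast; ring⟩, ?_⟩
    · rw [T_two]; exact W.L.mul_mem (s0_mem_L W) (s0_mem_L W)
    · rw [T_two, h.chi_mul (s0_mem_L W) (s0_mem_L W)]; push_cast; ring
  | succ j hj ih =>
    intro hjk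
    obtain ⟨h1, h2, h3⟩ := ih (by omega)
    obtain ⟨h4, h5⟩ := h2 (by omega)
    obtain ⟨j', rfl⟩ : ∃ j', j = j' + 1 := ⟨j - 1, by omega⟩
    refine ⟨?_, ?_, ?_⟩
    · rw [T_succ]; exact W.L.mul_mem h1 h4
    · intro hjk'
      have hs : W.s (j' + 1) ∈ W.L := s_mem_L W hj hjk'
      rw [lam_succ]
      refine ⟨W.L.mul_mem (W.L.mul_mem hs h4) hs, ?_⟩
      rw [h.chi_mul (W.L.mul_mem hs h4) hs, h.chi_mul hs h4, h5,
        h.chi_s (i₀ := 2) (fun i hi hik => s_mem_L W hi hik) (j' + 1) hj hjk']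
      push_cast
      ring
    · rw [T_succ, h.chi_mul h1 h4, h3, h5]
      push_cast
      ring

theorem chiB (W : WSys k Γ F) {O : Finset (F × F)} {m : ℕ} (hm : m ≤ k) (h : St W (W.Bm m) O) :
    ∀ j, 1 ≤ j → j ≤ m →
    W.T j ∈ W.Bm m ∧ (j < m → W.lam j ∈ W.Bm m ∧
      chi W O (W.lam j) = 2 * (j : ℝ) * chi W O (W.s 0)) ∧
    chi W O (W.T j) = (j : ℝ) * ((j : ℝ) - 1) * chi W O (W.s 0) := by
  intro j hj
  induction j, hj using Nat.le_induction with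
  | base =>
    intro _
    refine ⟨(W.Bm m).one_mem, fun h1 => ?_, ?_⟩
    · rw [lam_one]
      have hs : W.s 0 ∈ W.Bm m := s_mem_Bm W (by omega)
      refine ⟨(W.Bm m).mul_mem hs hs, ?_⟩
      rw [h.chi_mul hs hs]; push_cast; ring
    · show chi W O 1 = _
      rw [h.chi_one]; push_cast; ring
  | succ j hj ih =>
    intro hjk
    obtain ⟨h1, h2, h3⟩ := ih (by omega)
    obtain ⟨h4, h5⟩ := h2 (by omega)
    obtain ⟨j', rfl⟩ : ∃ j', j = j' + 1 := ⟨j - 1, by omega⟩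
    refine ⟨?_, ?_, ?_⟩
    · rw [T_succ]; exact (W.Bm m).mul_mem h1 h4
    · intro hjk'
      have hs : W.s (j' + 1) ∈ W.Bm m := s_mem_Bm W (by omega)
      rw [lam_succ]
      refine ⟨(W.Bm m).mul_mem ((W.Bm m).mul_mem hs h4) hs, ?_⟩
      rw [h.chi_mul ((W.Bm m).mul_mem hs h4) hs, h.chi_mul hs h4, h5]
      have h6 : ∀ i, i + 1 < m → chi W O (W.s i) = chi W O (W.s 0) := by
        intro i
        induction i with
        | zero => intro _; rfl
        | succ i ih6 =>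
          intro hi
          rw [← ih6 (by omega), ← s_succ_conj W (i := i) (by omega)]
          exact h.chi_conj ((W.Bm m).mul_mem (s_mem_Bm W (by omega)) (s_mem_Bm W hi)) (s_mem_Bm W (by omega))
      rw [h6 (j' + 1) (by omega)]
      push_cast
      ring
    · rw [T_succ, h.chi_mul h1 h4, h3, h5]
      push_cast
      ring

/-- the generators are conjugate to `s 0`. -/
theorem s_conj0 (W : WSys k Γ F) : ∀ i, i + 1 < k → ∃ g ∈ W.Bm (i + 2), W.s i = g * W.s 0 * g⁻¹ := by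
  intro i
  induction i with
  | zero => intro _; exact ⟨1, Subgroup.one_mem _, by simp⟩
  | succ i ih =>
    intro hi
    obtain ⟨g, hg, he⟩ := ih (by omega)
    have hle : W.Bm (i + 2) ≤ W.Bm (i + 1 + 2) := by
      refine Subgroup.closure_mono ?_
      rintro x ⟨j, hj, rfl⟩
      exact ⟨j, by omega, rfl⟩
    refine ⟨W.s i * W.s (i + 1) * g, Subgroup.mul_mem _ (Subgroup.mul_mem _ (s_mem_Bm W (by omega))
      (s_mem_Bm W (by omega))) (hle hg), ?_⟩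
    calc W.s (i + 1) = (W.s i * W.s (i + 1)) * W.s i * (W.s i * W.s (i + 1))⁻¹ :=
          (s_succ_conj W (i := i) (by omega)).symm
      _ = (W.s i * W.s (i + 1)) * (g * W.s 0 * g⁻¹) * (W.s i * W.s (i + 1))⁻¹ := by
          rw [← he]
      _ = _ := by group

theorem v_s_nonneg (W : WSys k Γ F) {b : ℝ} (A : W.Ax b) {i : ℕ} (hi : i + 1 < k) {x y : F}
    (hR : W.R x y) (hne : x ≠ y) : 0 ≤ W.v (W.s i) x y := by
  obtain ⟨g, _, he⟩ := s_conj0 W i hi
  rw [he, v_conj' W _ _ hR hne]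
  exact A.nonneg _ _ (W.R_smul _ hR) (fun hh => hne (MulAction.injective _ hh))

theorem T_three (W : WSys k Γ F) :
    W.T 3 = W.s 0 * W.s 0 * (W.s 1 * (W.s 0 * W.s 0) * W.s 1) := by
  show (1 : Γ) * (W.s 0 * W.s 0) * (W.s 1 * (W.s 0 * W.s 0) * W.s 1) = _
  rw [one_mul]

theorem s0_lam2 (W : WSys k Γ F) (hk : 3 ≤ k) : W.s 0 * W.lam 2 = W.lam 2 * W.s 0 := by
  have hb := W.braid 0 (by omega)
  simp only [zero_add] at hb
  show W.s 0 * (W.s 1 * (W.s 0 * W.s 0) * W.s 1) = W.s 1 * (W.s 0 * W.s 0) * W.s 1 * W.s 0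
  calc W.s 0 * (W.s 1 * (W.s 0 * W.s 0) * W.s 1) = (W.s 0 * W.s 1 * W.s 0) * (W.s 0 * W.s 1) := by group
    _ = (W.s 1 * W.s 0 * W.s 1) * (W.s 0 * W.s 1) := by rw [hb]
    _ = W.s 1 * W.s 0 * (W.s 1 * W.s 0 * W.s 1) := by group
    _ = W.s 1 * W.s 0 * (W.s 0 * W.s 1 * W.s 0) := by rw [hb]
    _ = _ := by group

theorem T3_comm (W : WSys k Γ F) (hk : 3 ≤ k) (g : Γ) (hg : g ∈ W.Bm 3) : g * W.T 3 = W.T 3 * g := by
  have hb := W.braid 0 (by omega)
  simp only [zero_add] at hb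
  have h0 : W.s 0 * W.T 3 = W.T 3 * W.s 0 := by
    have := s0_lam2 W hk
    have hT : W.T 3 = W.s 0 * W.s 0 * W.lam 2 := T_three W
    rw [hT, mul_assoc (W.s 0 * W.s 0), ← this]
    group
  have hT' : W.T 3 = (W.s 0 * W.s 1 * W.s 0) * (W.s 0 * W.s 1 * W.s 0) := by
    rw [T_three]
    calc W.s 0 * W.s 0 * (W.s 1 * (W.s 0 * W.s 0) * W.s 1) =
        W.s 0 * ((W.s 0 * W.s 1 * W.s 0) * (W.s 0 * W.s 1)) := by group
      _ = W.s 0 * ((W.s 1 * W.s 0 * W.s 1) * (W.s 0 * W.s 1)) := by rw [hb]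
      _ = W.s 0 * W.s 1 * W.s 0 * (W.s 1 * W.s 0 * W.s 1) := by group
      _ = W.s 0 * W.s 1 * W.s 0 * (W.s 0 * W.s 1 * W.s 0) := by rw [hb]
  have h1 : W.s 1 * W.T 3 = W.T 3 * W.s 1 := by
    rw [hT']
    calc W.s 1 * (W.s 0 * W.s 1 * W.s 0 * (W.s 0 * W.s 1 * W.s 0)) =
        (W.s 1 * W.s 0 * W.s 1) * (W.s 0 * (W.s 0 * W.s 1 * W.s 0)) := by group
      _ = (W.s 0 * W.s 1 * W.s 0) * (W.s 0 * (W.s 1 * W.s 0 * W.s 1)) := by rw [hb]
      _ = W.s 0 * W.s 1 * W.s 0 * (W.s 0 * W.s 1 * W.s 0) * W.s 1 := by group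
  refine Subgroup.closure_induction (p := fun g _ => g * W.T 3 = W.T 3 * g) ?_ ?_ ?_ ?_ hg
  · rintro x ⟨i, hi, rfl⟩
    have : i = 0 ∨ i = 1 := by omega
    rcases this with rfl | rfl
    · exact h0
    · exact h1
  · rw [one_mul, mul_one]
  · intro x y _ _ hx hy
    rw [mul_assoc, hy, ← mul_assoc, hx, mul_assoc]
  · intro x _ hx
    rw [inv_mul_eq_iff_eq_mul, ← mul_assoc, hx, mul_inv_cancel_right]

/-- the sum rule for a `B_m`-orbit of a pair. -/
theorem T_orb (W : WSys k Γ F) {m : ℕ} (h1 : 1 ≤ m) (hm : m ≤ k)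
    (hc : ∀ g ∈ W.Bm m, g * W.T m = W.T m * g) {x y : F} (hR : W.R x y) (hne : x ≠ y) :
    ((orb (W.Bm m) (x, y)).card : ℝ) * W.v (W.T m) x y =
      (m : ℝ) * ((m : ℝ) - 1) * chi W (orb (W.Bm m) (x, y)) (W.s 0) := by
  have hSt := St.orb (W := W) (W.Bm m) hR hne
  rw [← (chiB W hm hSt m h1 le_rfl).2.2]
  unfold chi
  have : ∀ p ∈ orb (W.Bm m) (x, y), W.v (W.T m) p.1 p.2 = W.v (W.T m) x y := by
    intro p hp
    obtain ⟨g, hg, rfl⟩ := (mem_orb _ _ _).1 hp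
    exact v_comm W _ g hR hne (hc g hg)
  rw [Finset.sum_congr rfl this, Finset.sum_const, nsmul_eq_mul]

theorem T_nonneg (W : WSys k Γ F) {b : ℝ} (A : W.Ax b) {m : ℕ} (h1 : 1 ≤ m) (hm : m ≤ k)
    (hc : ∀ g ∈ W.Bm m, g * W.T m = W.T m * g) {x y : F} (hR : W.R x y) (hne : x ≠ y) :
    0 ≤ W.v (W.T m) x y := by
  have h := T_orb W h1 hm hc hR hne
  have hpos : (0 : ℝ) < ((orb (W.Bm m) (x, y)).card : ℝ) := by
    have : 0 < (orb (W.Bm m) (x, y)).card := Finset.card_pos.2 ⟨_, self_mem_orb _ _⟩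
    exact_mod_cast this
  have h2 : 0 ≤ chi W (orb (W.Bm m) (x, y)) (W.s 0) := by
    refine Finset.sum_nonneg fun p hp => ?_
    obtain ⟨hg1, hg2⟩ := (St.orb (W := W) (W.Bm m) hR hne).good p hp
    exact A.nonneg _ _ hg1 hg2
  have h3 : (0 : ℝ) ≤ (m : ℝ) * ((m : ℝ) - 1) := by
    have : (1 : ℝ) ≤ m := by exact_mod_cast h1
    nlinarith
  have h4 : 0 ≤ ((orb (W.Bm m) (x, y)).card : ℝ) * W.v (W.T m) x y := by
    rw [h]; exact mul_nonneg h3 h2
  exact nonneg_of_mul_nonneg_right h4 hpos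

theorem T_pos (W : WSys k Γ F) {b : ℝ} (A : W.Ax b) {m : ℕ} (h1 : 2 ≤ m) (hm : m ≤ k)
    (hc : ∀ g ∈ W.Bm m, g * W.T m = W.T m * g) {x y : F} (hR : W.R x y) (hne : x ≠ y)
    (hv : 0 < W.v (W.s 0) x y) : 0 < W.v (W.T m) x y := by
  have h := T_orb W (by omega : 1 ≤ m) hm hc hR hne
  have hpos : (0 : ℝ) < ((orb (W.Bm m) (x, y)).card : ℝ) := by
    have : 0 < (orb (W.Bm m) (x, y)).card := Finset.card_pos.2 ⟨_, self_mem_orb _ _⟩
    exact_mod_cast this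
  have h2 : 0 < chi W (orb (W.Bm m) (x, y)) (W.s 0) := by
    refine Finset.sum_pos' (fun p hp => ?_) ⟨(x, y), self_mem_orb _ _, hv⟩
    obtain ⟨hg1, hg2⟩ := (St.orb (W := W) (W.Bm m) hR hne).good p hp
    exact A.nonneg _ _ hg1 hg2
  have h3 : (0 : ℝ) < (m : ℝ) * ((m : ℝ) - 1) := by
    have : (2 : ℝ) ≤ m := by exact_mod_cast h1
    nlinarith
  have h4 : 0 < ((orb (W.Bm m) (x, y)).card : ℝ) * W.v (W.T m) x y := by
    rw [h]; exact mul_pos h3 h2
  exact pos_of_mul_pos_right h4 hpos.le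

end LN6.H37
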