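import Pool.Agent.Helper37.LN6.Q3

/-!
LN6, leaf G6 (memo section 6): every block has exactly `k` elements.
-/

open scoped Classical
open Finset

set_option linter.unusedSectionVars false

namespace LN6.H37

open LN6 WSys

variable {k : ℕ} {Γ F : Type} [Group Γ] [MulAction Γ F] [Fintype F] {b : ℝ}

/-- the block of `x`. -/
noncomputable def blk (W : WSys k Γ F) (x : F) : Finset F := univ.filter fun y => W.R x y

theorem mem_blk (W : WSys k Γ F) {x y : F} : y ∈ blk W x ↔ W.R x y := by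
  unfold blk; simp

/-- counting an invariant predicate in blocks. -/
theorem card_smul (W : WSys k Γ F) (g : Γ) (P Q : F → Prop) (h : ∀ z, P (g • z) ↔ Q z) (x : F) :
    (univ.filter fun z => W.R (g • x) z ∧ P z).card = (univ.filter fun z => W.R x z ∧ Q z).card := by
  symm
  refine Finset.card_bij (fun z _ => g • z) ?_ ?_ ?_
  · intro z hz
    simp only [mem_filter, mem_univ, true_and] at hz ⊢
    exact ⟨W.R_smul g hz.1, (h z).2 hz.2⟩
  · intro z _ z' _ hzz
    exact MulAction.injective g hzz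
  · intro z hz
    simp only [mem_filter, mem_univ, true_and] at hz
    refine ⟨g⁻¹ • z, ?_, smul_inv_smul _ _⟩
    simp only [mem_filter, mem_univ, true_and]
    refine ⟨?_, (h _).1 (by rw [smul_inv_smul]; exact hz.2)⟩
    have := W.R_smul g⁻¹ hz.1
    rwa [inv_smul_smul] at this

theorem card_R (W : WSys k Γ F) (P : F → Prop) {x y : F} (hR : W.R x y) :
    (univ.filter fun z => W.R x z ∧ P z).card = (univ.filter fun z => W.R y z ∧ P z).card := by
  congr 1
  ext z
  simp only [mem_filter, mem_univ, true_and]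
  exact ⟨fun h => ⟨W.R_trans (W.R_symm hR) h.1, h.2⟩, fun h => ⟨W.R_trans hR h.1, h.2⟩⟩

theorem card_B0 (W : WSys k Γ F) (A : W.Ax b) (h1 : W.SOne) (x : F) :
    (univ.filter fun z => W.R x z ∧ z ∈ W.B (W.s 0)).card = W.r := by
  obtain ⟨y, hyB, hRxy⟩ := A.exists_B W.arc_s0 x
  have hy : (W.cl (W.s 0) y).card = W.r := hyB
  rw [← hy]
  congr 1
  ext z
  rw [WSys.mem_cl]
  simp only [mem_filter, mem_univ, true_and]
  constructor
  · rintro ⟨h2, h3⟩
    exact h1 _ _ hyB h3 (W.R_trans (W.R_symm hRxy) h2)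
  · intro hE
    exact ⟨W.R_trans hRxy hE.toR, A.B_of_E W.arc_s0 hE hyB⟩

theorem card_B2 (W : WSys k Γ F) (A : W.Ax b) (h1 : W.SOne) (x : F) :
    (univ.filter fun z => W.R x z ∧ z ∈ W.B (W.s 2)).card = W.r := by
  have hk5 := A.k5
  obtain ⟨g, _, he⟩ := s_conj0 W 2 (by omega)
  rw [← card_B0 W A h1 (g⁻¹ • x)]
  have h := card_smul W g⁻¹ (fun z => z ∈ W.B (W.s 0)) (fun z => z ∈ W.B (W.s 2)) ?_ x
  · exact h.symm
  · intro z
    rw [he, B_conj W]

end LN6.H37

namespace LN6.WSys

open H37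

variable {k : ℕ} {Γ F : Type} [Group Γ] [MulAction Γ F] [Fintype F] {b : ℝ}

/-- `W.K l x c`: the nice elements with label `c` in the block of `x`. -/
private noncomputable def Kc (W : WSys k Γ F) (l : F → ℕ) (x : F) (c : ℕ) : Finset F :=
  univ.filter fun z => W.R x z ∧ (W.Nice z ∧ l z = c)

private theorem mem_Kc (W : WSys k Γ F) {l : F → ℕ} {x : F} {c : ℕ} {z : F} :
    z ∈ Kc W l x c ↔ W.R x z ∧ W.Nice z ∧ l z = c := by
  unfold Kc; simp

private theorem card_Kc (W : WSys k Γ F) (hk : 3 ≤ k) {l : F → ℕ} (hl : W.Lab b l) (x : F) :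
    ∀ c, 2 ≤ c → c < k → (Kc W l x c).card = (Kc W l x 2).card := by
  intro c hc
  induction c, hc using Nat.le_induction with
  | base => intro _; rfl
  | succ c hc ih =>
    intro hck
    rw [← ih (by omega)]
    symm
    have hg : (W.s 0)⁻¹ * W.s c ∈ W.L := W.L.mul_mem (W.L.inv_mem (s0_mem_L W)) (s_mem_L W hc hck)
    have hRg : ∀ z, W.R z (((W.s 0)⁻¹ * W.s c) • z) := by
      intro z
      have h1 := W.R_smul (W.s 0)⁻¹ (W.R_s c z hck)
      rw [inv_smul_smul, ← mul_smul] at h1
      exact W.R_symm h1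
    have hlab : ∀ d, (W.lab ((W.s 0)⁻¹ * W.s c)) d = (Equiv.swap 0 1) ((Equiv.swap c (c + 1)) d) := by
      intro d
      rw [map_mul, map_inv, W.lab_s 0 (by omega), W.lab_s c hck, Equiv.swap_inv, Equiv.Perm.mul_apply]
    refine Finset.card_bij (fun z _ => ((W.s 0)⁻¹ * W.s c) • z) ?_ ?_ ?_
    · intro z hz
      rw [mem_Kc] at hz ⊢
      refine ⟨W.R_trans hz.1 (hRg z), nice_smul W hg (L_comm_s0 W hk hg) hz.2.1, ?_⟩
      rw [(hl z hz.2.1).2.1 _ hg, hlab, hz.2.2, Equiv.swap_apply_left,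
        Equiv.swap_apply_of_ne_of_ne (by omega) (by omega)]
    · intro z _ z' _ h
      exact MulAction.injective _ h
    · intro z hz
      rw [mem_Kc] at hz
      have hgi := W.L.inv_mem hg
      have hn : W.Nice (((W.s 0)⁻¹ * W.s c)⁻¹ • z) := nice_smul W hgi (L_comm_s0 W hk hgi) hz.2.1
      refine ⟨((W.s 0)⁻¹ * W.s c)⁻¹ • z, ?_, smul_inv_smul _ _⟩
      rw [mem_Kc]
      refine ⟨?_, hn, ?_⟩
      · have := hRg (((W.s 0)⁻¹ * W.s c)⁻¹ • z)
        rw [smul_inv_smul] at this
        exact W.R_trans hz.1 (W.R_symm this)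
      · have h3 := (hl _ hn).2.1 _ hg
        rw [smul_inv_smul, hz.2.2, hlab] at h3
        have h4 := congrArg (fun d => (Equiv.swap c (c + 1)) ((Equiv.swap 0 1) d)) h3
        simp only [Equiv.swap_apply_self] at h4
        rw [← h4, Equiv.swap_apply_of_ne_of_ne (a := 0) (b := 1) (by omega) (by omega),
          Equiv.swap_apply_right]

theorem wend {W : WSys k Γ F} (A : W.Ax b) (hb : 0 < b) {l : F → ℕ} (hf2 : W.SF2) (h1 : W.SOne)
    (hlv : W.SLV2 b) (hl : W.Lab b l) (hne : W.SNE) :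
    ∀ x, (univ.filter fun y => W.R x y).card = k := by
  have hk5 := A.k5
  have hk : 3 ≤ k := by omega
  -- numbers
  have hB0 := card_B0 W A h1
  have hB2 := card_B2 W A h1
  -- the block
  have hblk : ∀ x, (blk W x).card = k * (Kc W l x 2).card ∧ W.r = 2 * (Kc W l x 2).card := by
    intro x
    have e2 : W.r = 2 * (Kc W l x 2).card := by
      rw [← hB2 x]
      have : (univ.filter fun z => W.R x z ∧ z ∈ W.B (W.s 2)) = Kc W l x 2 ∪ Kc W l x 3 := by
        ext z
        rw [mem_union, mem_Kc, mem_Kc]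
        simp only [mem_filter, mem_univ, true_and]
        constructor
        · rintro ⟨h2, h3⟩
          rcases hne z with h4 | h4
          · exact absurd h3 (hf2 z h4)
          · rcases (hl z h4).2.2.2.1.1 h3 with h5 | h5
            · exact Or.inl ⟨h2, h4, h5⟩
            · exact Or.inr ⟨h2, h4, h5⟩
        · rintro (⟨h2, h3, h4⟩ | ⟨h2, h3, h4⟩)
          · exact ⟨h2, (hl z h3).2.2.2.1.2 (Or.inl h4)⟩
          · exact ⟨h2, (hl z h3).2.2.2.1.2 (Or.inr h4)⟩
      rw [this, Finset.card_union_of_disjoint, card_Kc W hk hl x 3 (by omega) (by omega)]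
      · ring
      · rw [Finset.disjoint_left]
        intro z hz hz'
        rw [mem_Kc] at hz hz'
        have := hz.2.2
        rw [hz'.2.2] at this
        omega
    refine ⟨?_, e2⟩
    have e1 : blk W x = (univ.filter fun z => W.R x z ∧ z ∈ W.B (W.s 0)) ∪
        (Finset.Ico 2 k).biUnion fun c => Kc W l x c := by
      ext z
      rw [mem_union, mem_blk, mem_biUnion]
      simp only [mem_filter, mem_univ, true_and]
      constructor
      · intro hz
        rcases hne z with h4 | h4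
        · exact Or.inl ⟨hz, h4⟩
        · right
          obtain ⟨⟨hc1, hc2⟩, _⟩ := hl z h4
          exact ⟨l z, Finset.mem_Ico.2 ⟨hc1, hc2⟩, (mem_Kc W).2 ⟨hz, h4, rfl⟩⟩
      · rintro (h | ⟨c, _, h⟩)
        · exact h.1
        · exact ((mem_Kc W).1 h).1
    rw [e1, Finset.card_union_of_disjoint, Finset.card_biUnion, hB0 x,
      Finset.sum_congr rfl fun c hc => card_Kc W hk hl x c (Finset.mem_Ico.1 hc).1 (Finset.mem_Ico.1 hc).2,
      Finset.sum_const, Nat.card_Ico, smul_eq_mul, e2]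
    · obtain ⟨k', rfl⟩ : ∃ k', k = k' + 2 := ⟨k - 2, by omega⟩
      rw [Nat.add_sub_cancel]
      ring
    · intro c _ c' _ hcc
      rw [Function.onFun, Finset.disjoint_left]
      intro z hz hz'
      rw [mem_Kc] at hz hz'
      exact hcc (hz.2.2.symm.trans hz'.2.2)
    · rw [Finset.disjoint_left]
      intro z hz hz'
      rw [mem_biUnion] at hz'
      obtain ⟨c, _, hc⟩ := hz'
      rw [mem_Kc] at hc
      simp only [mem_filter, mem_univ, true_and] at hz
      exact hc.2.1.1 hz.2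
  intro x₀
  set κ := (Kc W l x₀ 2).card with hκ
  have hr : W.r = 2 * κ := (hblk x₀).2
  have hn : ∀ x, (blk W x).card = k * κ := by
    intro x
    have h2 := (hblk x).2
    rw [hr] at h2
    rw [(hblk x).1]
    congr 1
    omega
  have hκ1 : 1 ≤ κ := by
    have h2 : 0 < (blk W x₀).card := Finset.card_pos.2 ⟨x₀, (mem_blk W).2 (W.R_refl _)⟩
    rw [hn] at h2
    exact Nat.pos_of_mul_pos_left h2
  -- all good pairs
  set O : Finset (F × F) := univ.filter fun p => W.R p.1 p.2 ∧ p.1 ≠ p.2 with hO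
  have hSt : St W (W.Bm k) O := by
    refine ⟨fun p hp => (Finset.mem_filter.1 hp).2, fun g _ p hp => ?_⟩
    have h2 := (Finset.mem_filter.1 hp).2
    exact Finset.mem_filter.2 ⟨mem_univ _, W.R_smul g h2.1, fun h => h2.2 (MulAction.injective g h)⟩
  have hT : H37.chi W O (W.T k) = b * O.card := by
    unfold H37.chi
    rw [Finset.sum_congr rfl fun p hp => A.all _ _ (hSt.good p hp).1 (hSt.good p hp).2, Finset.sum_const,
      nsmul_eq_mul, mul_comm]
  have hTk := (chiB W le_rfl hSt k (by omega) le_rfl).2.2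
  rw [hT] at hTk
  -- the number of good pairs
  have hOc : O.card = Fintype.card F * (k * κ - 1) := by
    rw [hO, Finset.card_filter, Fintype.sum_prod_type]
    have : ∀ x : F, (∑ y : F, if W.R x y ∧ x ≠ y then 1 else 0) = k * κ - 1 := by
      intro x
      rw [← Finset.card_filter]
      have e : (univ.filter fun y => W.R x y ∧ x ≠ y) = (blk W x).erase x := by
        ext y
        rw [mem_erase, mem_blk]
        simp only [mem_filter, mem_univ, true_and]
        exact ⟨fun h => ⟨Ne.symm h.2, h.1⟩, fun h => ⟨h.2, Ne.symm h.1⟩⟩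
      rw [e, Finset.card_erase_of_mem ((mem_blk W).2 (W.R_refl _)), hn]
    rw [Finset.sum_congr rfl fun x _ => this x, Finset.sum_const, Finset.card_univ, smul_eq_mul]
  set B0 : Finset F := univ.filter fun x => x ∈ W.B (W.s 0) with hB0d
  set O' : Finset (F × F) := O.filter fun p => p.1 ∈ W.B (W.s 0) ∧ p.2 ∈ W.B (W.s 0) with hO'
  have hO'c : O'.card = B0.card * (2 * κ - 1) := by
    rw [hO', hO, Finset.filter_filter, Finset.card_filter, Fintype.sum_prod_type]
    have : ∀ x : F, (∑ y : F, if (W.R x y ∧ x ≠ y) ∧ x ∈ W.B (W.s 0) ∧ y ∈ W.B (W.s 0) then 1 else 0) =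
        if x ∈ W.B (W.s 0) then 2 * κ - 1 else 0 := by
      intro x
      by_cases hx : x ∈ W.B (W.s 0)
      · rw [if_pos hx, ← Finset.card_filter]
        have e : (univ.filter fun y => (W.R x y ∧ x ≠ y) ∧ x ∈ W.B (W.s 0) ∧ y ∈ W.B (W.s 0)) =
            (univ.filter fun z => W.R x z ∧ z ∈ W.B (W.s 0)).erase x := by
          ext y
          rw [mem_erase]
          simp only [mem_filter, mem_univ, true_and]
          exact ⟨fun h => ⟨Ne.symm h.1.2, h.1.1, h.2.2⟩, fun h => ⟨⟨h.2.1, Ne.symm h.1⟩, hx, h.2.2⟩⟩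
        rw [e, Finset.card_erase_of_mem, hB0, hr]
        simp only [mem_filter, mem_univ, true_and]
        exact ⟨W.R_refl _, hx⟩
      · rw [if_neg hx]
        refine Finset.sum_eq_zero fun y _ => if_neg ?_
        rintro ⟨_, h, _⟩
        exact hx h
    rw [Finset.sum_congr rfl fun x _ => this x, ← Finset.sum_filter, Finset.sum_const, smul_eq_mul]
  have hdc : B0.card * (k * κ) = Fintype.card F * (2 * κ) := by
    have h2 : ∑ x : F, (univ.filter fun z => W.R x z ∧ z ∈ W.B (W.s 0)).card =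
        Fintype.card F * (2 * κ) := by
      rw [Finset.sum_congr rfl fun x _ => (hB0 x).trans hr, Finset.sum_const, Finset.card_univ, smul_eq_mul]
    rw [← h2]
    simp only [Finset.card_filter]
    rw [Finset.sum_comm]
    have h3 : ∀ z : F, (∑ x : F, if W.R x z ∧ z ∈ W.B (W.s 0) then 1 else 0) =
        if z ∈ W.B (W.s 0) then k * κ else 0 := by
      intro z
      by_cases hz : z ∈ W.B (W.s 0)
      · rw [if_pos hz, ← Finset.card_filter, ← hn z]
        congr 1
        ext x
        rw [mem_blk]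
        simp only [mem_filter, mem_univ, true_and]
        exact ⟨fun h => W.R_symm h.1, fun h => ⟨W.R_symm h, hz⟩⟩
      · rw [if_neg hz]
        exact Finset.sum_eq_zero fun y _ => if_neg fun h => hz h.2
    rw [Finset.sum_congr rfl fun z _ => h3 z, ← Finset.sum_filter, Finset.sum_const, smul_eq_mul]
  -- the estimate
  have hge : b / 2 * O'.card ≤ H37.chi W O (W.s 0) := by
    have h2 : ∑ p ∈ O', W.v (W.s 0) p.1 p.2 ≤ H37.chi W O (W.s 0) := by
      refine Finset.sum_le_sum_of_subset_of_nonneg (Finset.filter_subset _ _) fun p hp _ => ?_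
      exact A.nonneg _ _ (hSt.good p hp).1 (hSt.good p hp).2
    refine le_trans ?_ h2
    have h3 : ∀ p ∈ O', b / 2 ≤ W.v (W.s 0) p.1 p.2 := by
      intro p hp
      obtain ⟨hpO, hp1, hp2⟩ := Finset.mem_filter.1 hp
      have := hlv _ _ hp1 hp2 (hSt.good p hpO).1 (hSt.good p hpO).2
      linarith
    have h4 := Finset.sum_le_sum h3
    rw [Finset.sum_const, nsmul_eq_mul] at h4
    linarith
  have hF : 0 < Fintype.card F := Fintype.card_pos_iff.2 ⟨x₀⟩
  have hcardeq : κ = 1 := by
    have hk5' : (5 : ℝ) ≤ k := by exact_mod_cast hk5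
    have hF' : (0 : ℝ) < Fintype.card F := by exact_mod_cast hF
    have hκ' : (1 : ℝ) ≤ κ := by exact_mod_cast hκ1
    have hOc' : (O.card : ℝ) = Fintype.card F * (k * κ - 1) := by
      rw [hOc, Nat.cast_mul, Nat.cast_sub]
      · push_cast; ring
      · exact Nat.one_le_iff_ne_zero.2 (Nat.mul_ne_zero (by omega) (by omega))
    have hO'c' : (O'.card : ℝ) = B0.card * (2 * κ - 1) := by
      rw [hO'c, Nat.cast_mul, Nat.cast_sub]
      · push_cast; ring
      · omega
    have hdc' : (B0.card : ℝ) * (k * κ) = Fintype.card F * (2 * κ) := by exact_mod_cast hdc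
    have hdc2 : (B0.card : ℝ) * k = Fintype.card F * 2 := by
      have h5 : ((B0.card : ℝ) * k) * κ = (Fintype.card F * 2) * κ := by linarith
      exact mul_right_cancel₀ (by linarith : (κ : ℝ) ≠ 0) h5
    rw [hOc'] at hTk
    rw [hO'c'] at hge
    -- b F (k κ - 1) ≥ k (k-1) (b/2) B0 (2κ-1) = (k-1) b F (2κ-1)
    have h6 : ((k : ℝ) - 1) * k * (b / 2 * (B0.card * (2 * κ - 1))) ≤ ((k : ℝ) - 1) * k * H37.chi W O (W.s 0) :=
      mul_le_mul_of_nonneg_left hge (mul_nonneg (by linarith) (by linarith))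
    have h7 : ((k : ℝ) - 1) * k * (b / 2 * (B0.card * (2 * κ - 1))) =
        ((k : ℝ) - 1) * (b * (Fintype.card F * (2 * κ - 1))) := by
      have : ((k : ℝ) - 1) * k * (b / 2 * (B0.card * (2 * κ - 1))) =
        ((k : ℝ) - 1) * (b / 2 * ((B0.card * k) * (2 * κ - 1))) := by ring
      rw [this, hdc2]
      ring
    have h8 : ((k : ℝ) - 1) * (b * (Fintype.card F * (2 * κ - 1))) ≤ b * (Fintype.card F * (k * κ - 1)) := by
      rw [hTk, ← h7]
      linarith
    have h9 : ((k : ℝ) - 1) * (2 * κ - 1) ≤ k * κ - 1 := by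
      have hbF : 0 < b * (Fintype.card F : ℝ) := mul_pos hb hF'
      have : b * (Fintype.card F : ℝ) * (((k : ℝ) - 1) * (2 * κ - 1)) ≤
          b * (Fintype.card F : ℝ) * (k * κ - 1) := by linarith
      exact le_of_mul_le_mul_left this hbF
    have h10 : (κ : ℝ) ≤ 1 := by nlinarith
    have : κ ≤ 1 := by exact_mod_cast h10
    omega
  show (blk W x₀).card = k
  rw [hn, hcardeq, mul_one]

/-! names according to the convention -/

theorem SUniq_of {W : WSys k Γ F} (A : W.Ax b) (hb : 0 < b) {l : F → ℕ} (hlv : W.SLV2 b) (hl : W.Lab b l) :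
    W.SUniq l := suniq A hb hlv hl

theorem SQ3_of {W : WSys k Γ F} (A : W.Ax b) (hb : 0 < b) {l : F → ℕ} (hav : W.SAV b) (hf2 : W.SF2)
    (hf3 : W.SF3') (hl : W.Lab b l) (hu : W.SUniq l) (hq : W.SQ b 3) : W.SQ3 b l :=
  sq3 A hb hav hf2 hf3 hl hu hq

theorem END_of {W : WSys k Γ F} (A : W.Ax b) (hb : 0 < b) {l : F → ℕ} (hf2 : W.SF2) (h1 : W.SOne)
    (hlv : W.SLV2 b) (hl : W.Lab b l) (hne : W.SNE) :
    ∀ x, (univ.filter fun y => W.R x y).card = k := wend A hb hf2 h1 hlv hl hne

end LN6.WSys
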