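import Pool.Agent.Helper37.LN6.Uniq

/-!
LN6, leaf G2 (memo f9): the nice classes with label 2 are in the ball `Q 3`.
-/

open scoped Classical
open Finset

set_option linter.unusedSectionVars false

namespace LN6.H37

open LN6 WSys

variable {k : ℕ} {Γ F : Type} [Group Γ] [MulAction Γ F] [Fintype F] {b : ℝ}

/-- `B (s 0)` and `B (s i)` are disjoint, `i ≥ 2`. -/
theorem F2_i (W : WSys k Γ F) (h2 : W.SF2) : ∀ i, 2 ≤ i → i + 1 < k → ∀ x, x ∈ W.B (W.s 0) →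
    x ∉ W.B (W.s i) := by
  intro i hi
  induction i, hi using Nat.le_induction with
  | base => intro _ x hx; exact h2 x hx
  | succ i hi ih =>
    intro hik x hx hx'
    rw [← s_succ_conj W (i := i) (by omega), B_conj W] at hx'
    refine ih (by omega) _ ?_ hx'
    rw [B_comm W]
    · exact hx
    · have h0 : ∀ j, 2 ≤ j → j + 1 < k → W.s 0 * W.s j = W.s j * W.s 0 := fun j hj hjk =>
        W.comm 0 j (by omega) hjk
      have h3 : (W.s i * W.s (i + 1)) * W.s 0 = W.s 0 * (W.s i * W.s (i + 1)) := by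
        rw [mul_assoc, ← h0 (i + 1) (by omega) hik, ← mul_assoc, ← h0 i hi (by omega), mul_assoc]
      rw [inv_mul_eq_iff_eq_mul, ← mul_assoc, h3, mul_inv_cancel_right]

theorem lab_s0_pow (W : WSys k Γ F) (hk : 2 ≤ k) {l : F → ℕ} (hl : W.Lab b l) {x : F} (hx : W.Nice x)
    (j : ℕ) : l (W.s 0 ^ j • x) = l x := by
  rw [(hl x hx).2.1 _ (W.L.pow_mem (s0_mem_L W) j), map_pow, W.lab_s 0 (by omega)]
  have h2 := (hl x hx).1.1
  have h3 : (Equiv.swap 0 (0 + 1)) (l x) = l x := Equiv.swap_apply_of_ne_of_ne (by omega) (by omega)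
  induction j with
  | zero => rfl
  | succ j ih => rw [pow_succ, Equiv.Perm.mul_apply, h3, ih]

end LN6.H37

namespace LN6.WSys

open H37

variable {k : ℕ} {Γ F : Type} [Group Γ] [MulAction Γ F] [Fintype F] {b : ℝ}

theorem sq3 {W : WSys k Γ F} (A : W.Ax b) (hb : 0 < b) {l : F → ℕ} (hav : W.SAV b) (hf2 : W.SF2)
    (hf3 : W.SF3') (hl : W.Lab b l) (hu : W.SUniq l) (hq : W.SQ b 3) : W.SQ3 b l := by
  intro x hx hlx
  have hk5 := A.k5
  have hk : 3 ≤ k := by omega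
  obtain ⟨y, hyB, hRxy⟩ := A.exists_B W.arc_s0 x
  have hne : x ≠ y := fun h => hx.1 (h ▸ hyB)
  set O := H37.orb W.L (x, y) with hO
  have hSt : St W W.L O := St.orb W.L hRxy hne
  have hp : ∀ p ∈ O, W.Nice p.1 ∧ p.2 ∈ W.B (W.s 0) ∧ ∃ g ∈ W.L, p.1 = g • x := by
    intro p hp
    obtain ⟨g, hg, rfl⟩ := (H37.mem_orb _ _ _).1 hp
    exact ⟨nice_smul W hg (L_comm_s0 W hk hg) hx, (B_comm W _ _ (L_comm_s0 W hk hg) y).2 hyB, g, hg, rfl⟩
  have hsum := hav O hSt.st (fun p hpO => ⟨(hp p hpO).1.1, (hp p hpO).2.1, (hSt.good p hpO).1⟩) 3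
    (by omega) (by omega)
  have hcard : (0 : ℝ) < (O.card : ℝ) := by
    have : 0 < O.card := Finset.card_pos.2 ⟨_, self_mem_orb _ _⟩
    exact_mod_cast this
  have hk5' : (5 : ℝ) ≤ k := by exact_mod_cast hk5
  obtain ⟨p, hpO, hpv⟩ : ∃ p ∈ O, 0 < W.v (W.T 3) p.1 p.2 := by
    by_contra hcon
    push Not at hcon
    have h1 := Finset.sum_nonpos hcon
    push_cast at hsum
    have h2 : 0 < (3 - 2) * b * (O.card : ℝ) := by
      have := mul_pos hb hcard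
      linarith
    rw [← hsum] at h2
    have h3 : 0 ≤ ((k : ℝ) - 2) * -(∑ p ∈ O, W.v (W.T 3) p.1 p.2) :=
      mul_nonneg (by linarith) (by linarith)
    linarith
  obtain ⟨hpn, hpB, g, hg, hgp⟩ := hp p hpO
  obtain ⟨hpR, hpne⟩ := hSt.good p hpO
  -- the label of `p.1` is `2`
  have hlp : l p.1 = 2 := by
    by_contra hne2
    obtain ⟨⟨hc1, hc2⟩, _⟩ := hl p.1 hpn
    obtain ⟨i, hi1, hi2, hi3⟩ : ∃ i, 3 ≤ i ∧ i + 1 < k ∧ (l p.1 = i ∨ l p.1 = i + 1) := by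
      by_cases h : l p.1 = k - 1
      · exact ⟨k - 2, by omega, by omega, Or.inr (by omega)⟩
      · exact ⟨l p.1, by omega, by omega, Or.inl rfl⟩
    have hb1 : p.1 ∈ W.B (W.s i) := (lab_mem_B W hk hl i (by omega) hi2 _ hpn).2 hi3
    have hnE : ¬ W.E (W.s i) p.1 p.2 := by
      intro hE
      exact F2_i W hf2 i (by omega) hi2 _ hpB (A.B_of_E (W.arc_s i hi2) hE hb1)
    rw [hf3 i 3 (by omega) hi1 hi2 _ hb1 _ hpR hnE] at hpv
    exact lt_irrefl _ hpv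
  have hpQ : p.1 ∈ W.Q b 3 := by
    by_contra hcon
    rw [hq.2.2.2 _ _ hcon (Or.inl hpB) hpR] at hpv
    exact lt_irrefl _ hpv
  -- compare `x` with `p.1`
  obtain ⟨j, hj⟩ := A.blk x p.1
  have hxj : W.Nice (W.s 0 ^ j • x) := by
    have hg := W.L.pow_mem (s0_mem_L W) j
    exact nice_smul W hg (L_comm_s0 W hk hg) hx
  have hE := hu _ _ hxj hpn hj (by rw [lab_s0_pow W (by omega) hl hx j, hlx, hlp])
  have hQj : W.s 0 ^ j • x ∈ W.Q b 3 := by
    by_contra hcon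
    rcases hE with hE | ⟨hE1, hE2⟩
    · rw [hE] at hcon; exact hcon hpQ
    · have h1 := hq.2.2.2 _ _ hcon hpQ hE1
      have hne' : W.s 0 ^ j • x ≠ p.1 := fun h => hcon (h ▸ hpQ)
      have h2 := T_pos W A (by omega : 2 ≤ 3) (by omega) (fun g hg => T3_comm W hk g hg) hE1 hne' hE2
      rw [h1] at h2
      exact lt_irrefl _ h2
  have := hq.1 _ ((W.Bm 3).inv_mem ((W.Bm 3).pow_mem (s_mem_Bm W (by omega : 0 + 1 < 3)) j)) _ hQj
  rwa [inv_smul_smul] at this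

end LN6.WSys
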