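import Pool.Agent.Helper37.LN6.Bas
import Pool.Agent.Helper26.LN6.Cls

/-!
LN6, leaf G1 (memo f8): two nice classes in the same block with the same label are equal.
-/

open scoped Classical
open Finset

set_option linter.unusedSectionVars false

namespace LN6.H37

open LN6 WSys

variable {k : ℕ} {Γ F : Type} [Group Γ] [MulAction Γ F] [Fintype F] {b : ℝ}

theorem nice_smul (W : WSys k Γ F) {g : Γ} (hg : g ∈ W.L) (hc : g * W.s 0 = W.s 0 * g) {x : F} (hx : W.Nice x) :
    W.Nice (g • x) := by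
  refine ⟨?_, ?_⟩
  · rw [B_comm W (W.s 0) g hc]
    exact hx.1
  · intro g' hg'
    rw [← mul_smul]
    exact hx.2 _ (W.L.mul_mem hg' hg)

theorem L_comm_s0 (W : WSys k Γ F) (hk : 3 ≤ k) {g : Γ} (hg : g ∈ W.L) : g * W.s 0 = W.s 0 * g := by
  refine Subgroup.closure_induction (p := fun g _ => g * W.s 0 = W.s 0 * g) ?_ ?_ ?_ ?_ hg
  · rintro x ((h | h) | ⟨i, hi, hik, rfl⟩)
    · rw [h]
    · rw [Set.mem_singleton_iff] at h
      rw [h]
      exact (s0_lam2 W hk).symm
    · exact (W.comm 0 i (by omega) hik).symm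
  · rw [one_mul, mul_one]
  · intro x y _ _ hx hy
    rw [mul_assoc, hy, ← mul_assoc, hx, mul_assoc]
  · intro x _ hx
    rw [inv_mul_eq_iff_eq_mul, ← mul_assoc, hx, mul_inv_cancel_right]

/-- A nice element with label `i` or `i + 1` is in `B (s i)`. -/
theorem lab_mem_B (W : WSys k Γ F) (hk : 3 ≤ k) {l : F → ℕ} (hl : W.Lab b l) : ∀ i, 2 ≤ i → i + 1 < k →
    ∀ x, W.Nice x → (x ∈ W.B (W.s i) ↔ (l x = i ∨ l x = i + 1)) := by
  intro i hi
  induction i, hi using Nat.le_induction with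
  | base => intro _ x hx; exact (hl x hx).2.2.2.1
  | succ i hi ih =>
    intro hik x hx
    have hg : W.s i * W.s (i + 1) ∈ W.L := W.L.mul_mem (s_mem_L W hi (by omega)) (s_mem_L W (by omega) hik)
    have hgi : (W.s i * W.s (i + 1))⁻¹ ∈ W.L := W.L.inv_mem hg
    have hx' : W.Nice ((W.s i * W.s (i + 1))⁻¹ • x) := nice_smul W hgi (L_comm_s0 W hk hgi) hx
    rw [← s_succ_conj W (i := i) (by omega), B_conj W, ih (by omega) _ hx', (hl x hx).2.1 _ hgi]
    rw [map_inv, map_mul, W.lab_s i (by omega), W.lab_s (i + 1) (by omega), mul_inv_rev, Equiv.swap_inv,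
      Equiv.swap_inv, Equiv.Perm.mul_apply]
    constructor
    · intro h
      have h2 : l x = (Equiv.swap i (i + 1)) ((Equiv.swap (i + 1) (i + 1 + 1))
          ((Equiv.swap (i + 1) (i + 1 + 1)) ((Equiv.swap i (i + 1)) (l x)))) := by
        rw [Equiv.swap_apply_self, Equiv.swap_apply_self]
      rcases h with h | h
      · rw [h] at h2
        left
        rw [h2, Equiv.swap_apply_of_ne_of_ne (a := i + 1) (b := i + 1 + 1) (by omega) (by omega),
          Equiv.swap_apply_left]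
      · rw [h] at h2
        right
        rw [h2, Equiv.swap_apply_left, Equiv.swap_apply_of_ne_of_ne (by omega) (by omega)]
    · rintro (h | h)
      · left
        rw [h, Equiv.swap_apply_right, Equiv.swap_apply_of_ne_of_ne (by omega) (by omega)]
      · right
        rw [h, Equiv.swap_apply_of_ne_of_ne (a := i) (b := i + 1) (by omega) (by omega),
          Equiv.swap_apply_right]

/-- levels on `B (s i)`. -/
theorem level_s (W : WSys k Γ F) (hlv : W.SLV2 b) {i : ℕ} (hi : i + 1 < k) {x y : F}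
    (hx : x ∈ W.B (W.s i)) (hy : y ∈ W.B (W.s i)) (hR : W.R x y) (hne : x ≠ y) :
    b ≤ 2 * W.v (W.s i) x y := by
  obtain ⟨g, _, he⟩ := s_conj0 W i hi
  rw [he, v_conj' W _ _ hR hne]
  rw [he, B_conj W] at hx hy
  exact hlv _ _ hx hy (W.R_smul _ hR) (fun hh => hne (MulAction.injective _ hh))

end LN6.H37

namespace LN6.WSys

open H37

variable {k : ℕ} {Γ F : Type} [Group Γ] [MulAction Γ F] [Fintype F] {b : ℝ}

theorem suniq {W : WSys k Γ F} (A : W.Ax b) (hb : 0 < b) {l : F → ℕ} (hlv : W.SLV2 b) (hl : W.Lab b l) :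
    W.SUniq l := by
  intro x y hx hy hR hlxy
  by_contra hE
  have hne : x ≠ y := fun h => hE (Or.inl h)
  have hk5 := A.k5
  have hk : 3 ≤ k := by omega
  have h0 : W.v (W.s 0) x y = 0 := by
    have h1 := A.nonneg x y hR hne
    by_contra h2
    exact hE (Or.inr ⟨hR, lt_of_le_of_ne h1 (Ne.symm h2)⟩)
  set O := H37.orb W.L (x, y) with hO
  have hSt : St W W.L O := St.orb W.L hR hne
  have hcard : (0 : ℝ) < (O.card : ℝ) := by
    have : 0 < O.card := Finset.card_pos.2 ⟨_, self_mem_orb _ _⟩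
    exact_mod_cast this
  -- the total twist
  have hT : H37.chi W O (W.T k) = b * O.card := by
    unfold H37.chi
    rw [Finset.sum_congr rfl fun p hp => A.all _ _ (hSt.good p hp).1 (hSt.good p hp).2, Finset.sum_const,
      nsmul_eq_mul, mul_comm]
  have hTk := (chiL W hSt k (by omega) le_rfl).2.2
  have hT3 := (chiL W hSt 3 (by omega) (by omega)).2.2
  have hs0 : H37.chi W O (W.s 0) = 0 := by
    refine Finset.sum_eq_zero fun p hp => ?_
    obtain ⟨g, hg, rfl⟩ := (H37.mem_orb _ _ _).1 hp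
    rw [← h0]
    exact v_comm W (W.s 0) g hR hne (L_comm_s0 W hk hg)
  have hT3n : 0 ≤ H37.chi W O (W.T 3) := by
    refine Finset.sum_nonneg fun p hp => ?_
    exact T_nonneg W A (by omega) (by omega) (fun g hg => T3_comm W hk g hg) (hSt.good p hp).1 (hSt.good p hp).2
  -- the generators `s i`
  have hsum : ((k : ℝ) - 3) * H37.chi W O (W.s 2) = ∑ i ∈ Finset.Ico 2 (k - 1), H37.chi W O (W.s i) := by
    rw [Finset.sum_congr rfl fun i hi => hSt.chi_s (i₀ := 2) (fun i hi hik => s_mem_L W hi hik) i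
      (Finset.mem_Ico.1 hi).1 (by have := (Finset.mem_Ico.1 hi).2; omega), Finset.sum_const, Nat.card_Ico,
      nsmul_eq_mul]
    congr 1
    rw [Nat.cast_sub (by omega), Nat.cast_sub (by omega)]
    push_cast
    ring
  have hge : b / 2 * O.card ≤ ∑ i ∈ Finset.Ico 2 (k - 1), H37.chi W O (W.s i) := by
    unfold H37.chi
    rw [Finset.sum_comm]
    have : ∀ p ∈ O, b / 2 ≤ ∑ i ∈ Finset.Ico 2 (k - 1), W.v (W.s i) p.1 p.2 := by
      intro p hp
      obtain ⟨hpR, hpn⟩ := hSt.good p hp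
      obtain ⟨g, hg, hgp⟩ := (H37.mem_orb _ _ _).1 hp
      have hp1 : p.1 = g • x := by rw [← hgp]; rfl
      have hp2 : p.2 = g • y := by rw [← hgp]; rfl
      have hn1 : W.Nice p.1 := by rw [hp1]; exact nice_smul W hg (L_comm_s0 W hk hg) hx
      have hn2 : W.Nice p.2 := by rw [hp2]; exact nice_smul W hg (L_comm_s0 W hk hg) hy
      have hll : l p.1 = l p.2 := by
        rw [hp1, hp2, (hl x hx).2.1 g hg, (hl y hy).2.1 g hg, hlxy]
      obtain ⟨⟨hc1, hc2⟩, _⟩ := hl p.1 hn1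
      obtain ⟨i, hi1, hi2, hi3⟩ : ∃ i, 2 ≤ i ∧ i + 1 < k ∧ (l p.1 = i ∨ l p.1 = i + 1) := by
        by_cases h : l p.1 = 2
        · exact ⟨2, le_rfl, by omega, Or.inl h⟩
        · exact ⟨l p.1 - 1, by omega, by omega, Or.inr (by omega)⟩
      have hb1 : p.1 ∈ W.B (W.s i) := (lab_mem_B W hk hl i hi1 hi2 _ hn1).2 hi3
      have hb2 : p.2 ∈ W.B (W.s i) := (lab_mem_B W hk hl i hi1 hi2 _ hn2).2 (by rw [← hll]; exact hi3)
      have h3 := level_s W hlv hi2 hb1 hb2 hpR hpn
      refine le_trans (by linarith : b / 2 ≤ W.v (W.s i) p.1 p.2) ?_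
      refine Finset.single_le_sum (f := fun i => W.v (W.s i) p.1 p.2) (fun j hj => ?_)
        (Finset.mem_Ico.2 ⟨hi1, by omega⟩)
      exact v_s_nonneg W A (by have := (Finset.mem_Ico.1 hj).2; omega) hpR hpn
    have h4 := Finset.sum_le_sum this
    rw [Finset.sum_const, nsmul_eq_mul] at h4
    linarith
  rw [← hsum] at hge
  rw [hT, hs0] at hTk
  rw [hs0] at hT3
  push_cast at hT3
  -- b |O| = (k-2) chi(lam 2) + (k-2)(k-3) chi(s 2)
  have hk5' : (5 : ℝ) ≤ k := by exact_mod_cast hk5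
  have h5 : 0 ≤ H37.chi W O (W.lam 2) := by linarith
  have h6 : 0 ≤ ((k : ℝ) - 2) * H37.chi W O (W.lam 2) := mul_nonneg (by linarith) h5
  have h7 : ((k : ℝ) - 2) * (b / 2 * O.card) ≤ ((k : ℝ) - 2) * (((k : ℝ) - 3) * H37.chi W O (W.s 2)) :=
    mul_le_mul_of_nonneg_left hge (by linarith)
  have h8 : 0 < b * O.card := mul_pos hb hcard
  nlinarith

end LN6.WSys
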